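import Mathlib
import Pool.Agent.MP_a31471_co.ff.Main

/-!
The finite-field model: two-colourings of `F_p ^ n` in which the density of monochromatic
`k`-term progressions is at most `2 ^ (-k √k / 10)`.
-/

set_option autoImplicit false

namespace Pool.Agent.Results.MP_a31471_co.FieldModel

/-- The number of pairs `a, d` in `F_p ^ n` with `d ≠ 0` such that the colouring `c` takes one
value on `a, a + d, …, a + (k - 1) d`. -/
noncomputable def mono (p n k : ℕ) (c : (Fin n → ZMod p) → Bool) : ℕ :=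
  Set.ncard {q : (Fin n → ZMod p) × (Fin n → ZMod p) |
    q.2 ≠ 0 ∧ ∀ i < k, c (q.1 + i • q.2) = c q.1}

theorem result : ∀ k p : ℕ, p.Prime → k ≤ p → 32 * Real.logb 2 p ≤ √k → ∀ n : ℕ,
    ∃ c : (Fin n → ZMod p) → Bool,
      (mono p n k c : ℝ) ≤
        (p : ℝ) ^ n * max ((2 : ℝ) ^ (-(k * √k / 10)) * (p : ℝ) ^ n - 1) 0 := by
  intro k p hp hk hL n
  classical
  have : Fact p.Prime := ⟨hp⟩
  obtain ⟨e, D, v, m, hv, h, hm, hpm⟩ := Pool.Agent.MP_a31471_co.ff.numbers k hk hL
  have hp1 : (1 : ℝ) < p := by exact_mod_cast hp.one_lt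
  by_cases hn : n ≤ m
  · obtain ⟨χ, hχ⟩ := Pool.Agent.MP_a31471_co.ff.exists_free_fin k e D v n hk hv h (by omega)
    have h0 : mono p n k χ = 0 := by
      rw [mono, Set.ncard_eq_zero, Set.eq_empty_iff_forall_notMem]
      rintro ⟨a, d⟩ ⟨hd, hc⟩
      obtain ⟨i, hi, hne⟩ := hχ a d hd
      exact hne (hc i hi)
    exact ⟨χ, by rw [h0, Nat.cast_zero]; positivity⟩
  obtain ⟨χ, hχ⟩ := Pool.Agent.MP_a31471_co.ff.exists_free_fin k e D v m hk hv h hm
  have hmn : m ≤ n := by omega
  let π : (Fin n → ZMod p) → (Fin m → ZMod p) := fun x j => x (Fin.castLE hmn j)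
  refine ⟨fun x => χ (π x), ?_⟩
  · let B : Finset (Fin n → ZMod p) :=
      Fintype.piFinset fun j => if (j : ℕ) < m then {0} else Finset.univ
    have hB : B.card = p ^ (n - m) := by
      simp only [B, Fintype.card_piFinset, apply_ite Finset.card, Finset.card_singleton,
        Finset.card_univ, ZMod.card]
      rw [Finset.prod_ite, Finset.prod_const_one, one_mul, Finset.prod_const]
      congr 1
      have h2 := Finset.card_filter_add_card_filter_not (s := (Finset.univ : Finset (Fin n)))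
        (fun j : Fin n => (j : ℕ) < m)
      rw [Fin.card_filter_val_lt, Finset.card_univ, Fintype.card_fin, min_eq_right hmn] at h2
      omega
    have hB0 : (0 : Fin n → ZMod p) ∈ B :=
      Fintype.mem_piFinset.2 fun j => by by_cases hj : (j : ℕ) < m <;> simp [hj]
    have h1 : mono p n k (fun x => χ (π x)) ≤ p ^ n * (p ^ (n - m) - 1) := by
      have h2 : (Finset.univ ×ˢ B.erase 0 : Finset ((Fin n → ZMod p) × (Fin n → ZMod p))).card =
          p ^ n * (p ^ (n - m) - 1) := by
        rw [Finset.card_product, Finset.card_erase_of_mem hB0, hB]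
        simp [ZMod.card]
      rw [← h2, ← Set.ncard_coe_finset]
      refine Set.ncard_le_ncard ?_
      rintro ⟨a, d⟩ ⟨hd0, hc⟩
      refine Finset.mem_coe.2 (Finset.mem_product.2
        ⟨Finset.mem_univ _, Finset.mem_erase.2 ⟨hd0, Fintype.mem_piFinset.2 fun j => ?_⟩⟩)
      have h3 : π d = 0 := by
        by_contra hd
        obtain ⟨i, hi, hne⟩ := hχ (π a) (π d) hd
        exact hne (hc i hi)
      by_cases hj : (j : ℕ) < m
      · simpa [hj, π] using congrFun h3 ⟨j, hj⟩
      · simp [hj]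
    have h2 : (mono p n k (fun x => χ (π x)) : ℝ) ≤ (p : ℝ) ^ n * ((p : ℝ) ^ (n - m) - 1) := by
      have := (Nat.cast_le (α := ℝ)).2 h1
      rwa [Nat.cast_mul, Nat.cast_sub (Nat.one_le_pow _ _ hp.pos), Nat.cast_pow, Nat.cast_pow,
        Nat.cast_one] at this
    have h3 : (p : ℝ) ^ n = (p : ℝ) ^ (n - m) * (p : ℝ) ^ m := by
      rw [← pow_add]
      congr 1
      omega
    have h4 : (0 : ℝ) < (2 : ℝ) ^ (k * √k / 10) := by positivity
    refine h2.trans (mul_le_mul_of_nonneg_left (le_max_of_le_left (sub_le_sub_right ?_ 1))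
      (by positivity))
    rw [Real.rpow_neg (by norm_num), inv_mul_eq_div, le_div_iff₀ h4, h3]
    exact mul_le_mul_of_nonneg_left hpm (by positivity)

end Pool.Agent.Results.MP_a31471_co.FieldModel
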