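import Mathlib
import Pool.Agent.MP_a31471_co.ex.Final

/-!
Every integer gets all but at most `L + 1` of `r` colours, and few `k`-term progressions have a
colour common to all their terms.
-/

set_option autoImplicit false

namespace Pool.Agent.Results.MP_a31471_co.ManyFold

/-- The number of pairs `a, d` with `a, d ≥ 1` and `a + (k - 1) d ≤ n` such that some colour lies
in all the sets `S a, S (a + d), …, S (a + (k - 1) d)`. -/
def share (k n r : ℕ) (S : ℕ → Finset (Fin r)) : ℕ :=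
  ((Finset.Icc 1 n ×ˢ Finset.Icc 1 n).filter
    (fun q => q.1 + (k - 1) * q.2 ≤ n ∧ ∃ c, ∀ i < k, c ∈ S (q.1 + i * q.2))).card

theorem result : ∀ k E L r : ℕ, 2 ^ 17 ≤ E → r ≤ E → 1 ≤ L → 2 ^ L ≤ E → E ^ 12 ≤ k → k ≤ 2 ^ E →
    ∃ S : ℕ → Finset (Fin r), (∀ x, r ≤ (S x).card + L + 1) ∧ ∀ n : ℕ,
      share k n r S
        ≤ n * ⌊(n : ℝ) / (2 : ℝ) ^ (((k : ℝ) / (E : ℝ) ^ 12) ^ (1 + (L : ℝ) / 2))⌋₊ := by
  intro k E L r hE hr hL1 hL hk1 hk2
  rcases Nat.eq_zero_or_pos r with rfl | hr1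
  · refine ⟨fun _ => ∅, fun _ => Nat.zero_le _, fun n => ?_⟩
    rw [share, Finset.filter_false_of_mem (fun q _ h => by obtain ⟨-, c, -⟩ := h; exact c.elim0)]
    simp
  obtain ⟨N, hN, ξ, hξ⟩ := Pool.Agent.MP_a31471_co.ex.progressions hE hr1 hr hL1 hL hk1 hk2
  refine ⟨fun x => (Finset.univ.image (ξ x))ᶜ, fun x => ?_, fun n => ?_⟩
  · have h1 := Finset.card_compl_add_card (Finset.univ.image (ξ x))
    have h2 := Finset.card_image_le (s := Finset.univ) (f := ξ x)
    rw [Finset.card_univ, Fintype.card_fin] at h2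
    rw [Fintype.card_fin] at h1
    show r ≤ ((Finset.univ.image (ξ x))ᶜ).card + L + 1
    omega
  · have h1 : share k n r (fun x => (Finset.univ.image (ξ x))ᶜ)
        ≤ (Finset.Icc 1 n ×ˢ (Finset.Ioc 0 n).filter (fun x => N ∣ x)).card := by
      refine Finset.card_le_card (fun z hz => ?_)
      obtain ⟨z1, -, c, hc⟩ := Finset.mem_filter.1 hz
      obtain ⟨z2, z3⟩ := Finset.mem_product.1 z1
      refine Finset.mem_product.2 ⟨z2, Finset.mem_filter.2
        ⟨Finset.mem_Ioc.2 (Finset.mem_Icc.1 z3), ?_⟩⟩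
      by_contra hd
      obtain ⟨i, hi, l, h⟩ := hξ z.1 z.2 (fun h => hd (Int.natCast_dvd_natCast.1 h)) c
      refine Finset.mem_compl.1 (hc i hi) (Finset.mem_image.2 ⟨l, Finset.mem_univ _, ?_⟩)
      push_cast
      exact h
    rw [Finset.card_product, Nat.Ioc_filter_dvd_card_eq_div, Nat.card_Icc, Nat.add_sub_cancel]
      at h1
    refine h1.trans (Nat.mul_le_mul_left _ (Nat.le_floor (Nat.cast_div_le.trans ?_)))
    exact div_le_div_of_nonneg_left (by positivity) (by positivity) hN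

end Pool.Agent.Results.MP_a31471_co.ManyFold
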