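import Mathlib
import Pool.Agent.MP_a31471_co.sx.Final8

/-!
The minimum density of monochromatic `k`-term progressions decays faster than any exponential:
it is at most `k ^ (-c k)` for every `c < 1 / 8` and all large `k`.
-/

set_option autoImplicit false

namespace Pool.Agent.Results.MP_a31471_co.SuperExp

/-- The number of pairs `a, d` with `a, d ≥ 1` and `a + (k - 1) d ≤ n` such that the colouring
`c` takes one value on `a, a + d, …, a + (k - 1) d`. Only the values of `c` on `[n]` are read. -/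
def mono (k n : ℕ) (c : ℕ → Bool) : ℕ :=
  ((Finset.Icc 1 n ×ˢ Finset.Icc 1 n).filter
    (fun q => q.1 + (k - 1) * q.2 ≤ n ∧ ∀ i < k, c (q.1 + i * q.2) = c q.1)).card

/-- `A(n; k)`, the minimum over all two-colourings. -/
noncomputable def A (n k : ℕ) : ℕ := sInf (Set.range (mono k n))

/-- `δ_k`. -/
noncomputable def delta (k : ℕ) : ℝ :=
  Filter.liminf (fun n : ℕ => (A n k : ℝ) / (n : ℝ) ^ 2) Filter.atTop

theorem result : ∀ c : ℝ, c < 1 / 8 → ∃ k₀ : ℕ, ∀ k ≥ k₀,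
    (∃ n₀ : ℕ, ∀ n ≥ n₀, (A n k : ℝ) ≤ (k : ℝ) ^ (-(c * k)) * (n : ℝ) ^ 2) ∧
    delta k ≤ (k : ℝ) ^ (-(c * k)) := by
  intro c hc
  obtain ⟨k0, h⟩ := Pool.Agent.MP_a31471_co.sx.sparse_colouring c hc
  refine ⟨max k0 1, fun k hk => ?_⟩
  obtain ⟨N, hN, χ, Bad, hBad, hχ⟩ := h k (le_of_max_le_left hk)
  have hk1 : (0 : ℝ) < k := by exact_mod_cast le_of_max_le_right hk
  have hp : (0 : ℝ) < (k : ℝ) ^ (c * k) := Real.rpow_pos_of_pos hk1 _
  have hN' : (0 : ℝ) < N := by exact_mod_cast hN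
  have h1 : ∀ n ≥ 3 * N, (A n k : ℝ) ≤ (k : ℝ) ^ (-(c * k)) * (n : ℝ) ^ 2 := by
    intro n hn
    have h2 : A n k ≤ mono k n (fun x => χ x) := Nat.sInf_le ⟨_, rfl⟩
    have h3 : mono k n (fun x => χ x) ≤ ((Finset.Icc 1 n ×ˢ Finset.Icc 1 n).filter
        (fun z : ℕ × ℕ => ((z.1 : ℤ) % N, (z.2 : ℤ) % N) ∈ Bad)).card := by
      refine Finset.card_le_card (fun z hz => ?_)
      obtain ⟨hz1, -, hz2⟩ := Finset.mem_filter.1 hz
      refine Finset.mem_filter.2 ⟨hz1, hχ z.1 z.2 ⟨χ z.1, fun i => ?_⟩⟩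
      simpa using hz2 i i.2
    have h4 := Pool.Agent.MP_a31471_co.sx.card_residues_le n N Bad
    have h5 : (A n k : ℝ) ≤ Bad.card * (((n / N : ℕ) : ℝ) + 1) ^ 2 := by
      exact_mod_cast (h2.trans h3).trans h4
    have h6 : ((n / N : ℕ) : ℝ) * N ≤ n := by exact_mod_cast Nat.div_mul_le_self n N
    have h7 : (3 : ℝ) * N ≤ n := by exact_mod_cast hn
    have h8 : (((n / N : ℕ) : ℝ) + 1) * N ≤ 4 / 3 * n := by linarith
    have h9 : ((((n / N : ℕ) : ℝ) + 1) * N) ^ 2 ≤ (4 / 3 * n) ^ 2 :=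
      pow_le_pow_left₀ (by positivity) h8 2
    have h10 := mul_le_mul_of_nonneg_right hBad (sq_nonneg (((n / N : ℕ) : ℝ) + 1))
    have h11 := mul_le_mul_of_nonneg_left h5 hp.le
    rw [Real.rpow_neg hk1.le, inv_mul_eq_div, le_div_iff₀ hp]
    nlinarith [sq_nonneg (n : ℝ)]
  refine ⟨⟨3 * N, h1⟩, Filter.liminf_le_of_frequently_le ?_ ?_⟩
  · refine ((Filter.eventually_ge_atTop (3 * N)).mono fun n hn => ?_).frequently
    have : (0 : ℝ) < n := by exact_mod_cast (by omega : 0 < n)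
    rw [div_le_iff₀ (by positivity)]
    exact h1 n hn
  · exact Filter.isBoundedUnder_of ⟨0, fun n => by positivity⟩

end Pool.Agent.Results.MP_a31471_co.SuperExp
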